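import Pool.Agent.H2.EA.Stm

set_option autoImplicit false

open Finset Module

namespace H28.EA

open H2.EA

theorem exists_coords {p : ℕ} [Fact p.Prime] {W : Type} [AddCommGroup W] [Module (ZMod p) W]
    [Finite W] : ∃ (n : ℕ) (β : W →+ (Fin n → ZMod p)) (e : Fin n → W),
    (∀ x, β x = 0 → x = 0) ∧ ∀ i, β (e i) = Pi.single i 1 := by
  let bs : Basis (Fin (Module.finrank (ZMod p) W)) (ZMod p) W := Module.finBasis (ZMod p) W
  refine ⟨_, (bs.equivFun : W →ₗ[ZMod p] _).toAddMonoidHom, fun i => bs i, ?_, ?_⟩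
  · intro x hx
    have : bs.equivFun x = 0 := hx
    rwa [LinearEquiv.map_eq_zero_iff] at this
  · intro i
    show bs.equivFun (bs i) = _
    funext j
    rw [Basis.equivFun_self]
    simp [Pi.single_apply, eq_comm]

theorem exists_coords' {p : ℕ} [Fact p.Prime] {W : Type} [AddCommGroup W] [Finite W]
    (h : ∀ x : W, p • x = 0) : ∃ (n : ℕ) (β : W →+ (Fin n → ZMod p)) (e : Fin n → W),
    (∀ x, β x = 0 → x = 0) ∧ ∀ i, β (e i) = Pi.single i 1 :=
  @exists_coords p _ W _ (AddCommGroup.zmodModule h) _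

theorem t_COORD : S_COORD := by
  intro p _ G A _ _ _ _ D K hA
  classical
  let ιK : Multiplicative A →* K :=
    MonoidHom.mk' (fun a => (⟨D.ι (Multiplicative.toAdd a), hA _⟩ : K)) (by
      intro a b
      apply Subtype.ext
      exact D.ι_add _ _)
  let P : Subgroup (Abelianization K) := (powMonoidHom p).range
  let I : Subgroup (Abelianization K) := ((Abelianization.of (G := K)).comp ιK).range
  let S : Subgroup (Abelianization K) := P ⊔ I
  let q : K →* (Abelianization K ⧸ S) := (QuotientGroup.mk' S).comp Abelianization.of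
  have hofs : Function.Surjective (Abelianization.of (G := K)) := by
    intro x
    obtain ⟨y, hy⟩ := QuotientGroup.mk_surjective x
    exact ⟨y, hy⟩
  have hq : Function.Surjective q := (QuotientGroup.mk'_surjective S).comp hofs
  have : Finite (Abelianization K) := Finite.of_surjective _ hofs
  have : Finite (Abelianization K ⧸ S) := Finite.of_surjective _ hq
  have hpow : ∀ x : Additive (Abelianization K ⧸ S), p • x = 0 := by
    intro x
    obtain ⟨y, hy⟩ := QuotientGroup.mk'_surjective S (Additive.toMul x)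
    apply Additive.toMul.injective
    show (Additive.toMul x) ^ p = 1
    rw [← hy, ← map_pow, QuotientGroup.mk'_apply, QuotientGroup.eq_one_iff]
    exact Subgroup.mem_sup_left ⟨y, rfl⟩
  have : Finite (Additive (Abelianization K ⧸ S)) := inferInstanceAs (Finite (Abelianization K ⧸ S))
  obtain ⟨n, β, e, hβ, he⟩ := exists_coords' hpow
  have hk : ∀ i, ∃ x : K, q x = Additive.toMul (e i) := fun i => hq _
  choose k hk using hk
  let α : G → Fin n → ZMod p := fun x =>
    if h : x ∈ K then β (Additive.ofMul (q ⟨x, h⟩)) else 0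
  have hα : ∀ x (h : x ∈ K), α x = β (Additive.ofMul (q ⟨x, h⟩)) := by
    intro x h
    exact dif_pos h
  refine ⟨_, ⟨{ k := fun i => (k i : G), hk := fun i => (k i).2, α := α, α_mul := ?_, α_k := ?_, α_ι := ?_, ker := ?_ }⟩⟩
  · intro x hx y hy
    rw [hα x hx, hα y hy, hα (x * y) (mul_mem hx hy)]
    have : (⟨x * y, mul_mem hx hy⟩ : K) = ⟨x, hx⟩ * ⟨y, hy⟩ := rfl
    rw [this, map_mul, ofMul_mul, map_add]
  · intro i
    rw [hα _ (k i).2]
    have : (⟨(k i : G), (k i).2⟩ : K) = k i := rfl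
    rw [this, hk i, ofMul_toMul, he]
  · intro a
    rw [hα _ (hA a)]
    have h1 : q ⟨D.ι a, hA a⟩ = 1 := by
      show (QuotientGroup.mk' S) (Abelianization.of _) = 1
      rw [QuotientGroup.mk'_apply, QuotientGroup.eq_one_iff]
      exact Subgroup.mem_sup_right ⟨Multiplicative.ofAdd a, rfl⟩
    rw [h1, ofMul_one, map_zero]
  · intro x hx hx0
    rw [hα x hx] at hx0
    have h2 : Additive.ofMul (q ⟨x, hx⟩) = 0 := hβ _ hx0
    have h3 : q ⟨x, hx⟩ = 1 := h2
    have h4 : Abelianization.of (⟨x, hx⟩ : K) ∈ S := by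
      have : (QuotientGroup.mk' S) (Abelianization.of (⟨x, hx⟩ : K)) = 1 := h3
      rwa [QuotientGroup.mk'_apply, QuotientGroup.eq_one_iff] at this
    obtain ⟨y, ⟨y', hy'⟩, z, ⟨a, ha⟩, hyz⟩ := Subgroup.mem_sup.mp h4
    obtain ⟨w, hw⟩ := hofs y'
    have h5 : Abelianization.of ((w ^ p * ιK a)⁻¹ * (⟨x, hx⟩ : K)) = 1 := by
      rw [map_mul, map_inv, map_mul, map_pow, hw, ← hyz, ← hy', ← ha]
      show (y' ^ p * (Abelianization.of (ιK a)))⁻¹ * (y' ^ p * (Abelianization.of (ιK a))) = 1
      exact inv_mul_cancel _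
    have h6 : (w ^ p * ιK a)⁻¹ * (⟨x, hx⟩ : K) ∈ commutator K := by
      rw [← Abelianization.ker_of]
      exact h5
    have h7 : commutator K ≤ ιK.range := by
      rw [commutator_def, Subgroup.commutator_le]
      intro g _ h _
      refine ⟨Multiplicative.ofAdd (D.c g h), ?_⟩
      apply Subtype.ext
      show D.ι (D.c g h) = _
      rw [D.ι_c]
      rfl
    obtain ⟨b, hb⟩ := h7 h6
    refine ⟨w, w.2, Multiplicative.toAdd a + Multiplicative.toAdd b, ?_⟩
    have h8 : (⟨x, hx⟩ : K) = (w ^ p * ιK a) * ιK b := by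
      rw [hb, mul_inv_cancel_left]
    have h9 := congrArg Subtype.val h8
    rw [D.ι_add, ← mul_assoc]
    exact h9

end H28.EA
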