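import Pool.Agent.H2.EA.Stm

set_option autoImplicit false

open Finset Module

namespace H28.EA

open H2.EA

/-- counting lemma -/
theorem relIndex_eq {G : Type} [Group G] (K H : Subgroup G) {M : Type} [AddCommGroup M] [Finite M]
    (f : G → M) (hf : ∀ x ∈ K, ∀ y ∈ K, f (x * y) = f x + f y) (T S : AddSubgroup M)
    (hT : ∀ x ∈ K, f x ∈ T) (hTs : ∀ t ∈ T, ∃ x ∈ K, f x = t) (hST : S ≤ T)
    (hH : ∀ x ∈ K, x ∈ H ↔ f x ∈ S) : H.relIndex K * Nat.card S = Nat.card T := by
  classical
  let φ : K →* Multiplicative T :=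
    MonoidHom.mk' (fun x => Multiplicative.ofAdd (⟨f x, hT x x.2⟩ : T)) (by
      intro x y
      rw [← ofAdd_add]
      congr 1
      apply Subtype.ext
      exact hf x x.2 y y.2)
  have hφ : Function.Surjective φ := by
    intro t
    obtain ⟨x, hx, hxt⟩ := hTs (Multiplicative.toAdd t).1 (Multiplicative.toAdd t).2
    refine ⟨⟨x, hx⟩, ?_⟩
    apply Multiplicative.toAdd.injective
    apply Subtype.ext
    exact hxt
  let S' : Subgroup (Multiplicative T) := AddSubgroup.toSubgroup (S.addSubgroupOf T)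
  have hS' : H.subgroupOf K = S'.comap φ := by
    ext x
    rw [Subgroup.mem_subgroupOf, Subgroup.mem_comap, hH x x.2]
    rfl
  have h1 : H.relIndex K = S'.index := by
    rw [Subgroup.relIndex, hS', Subgroup.index_comap_of_surjective _ hφ]
  have h2 : Nat.card S' = Nat.card S :=
    Nat.card_congr (AddSubgroup.addSubgroupOfEquivOfLe hST).toEquiv
  rw [h1, ← h2, Subgroup.index_mul_card]
  rfl

theorem relIndex_le {G : Type} [Group G] (K H : Subgroup G) {M : Type} [AddCommGroup M] [Finite M]
    [Finite G] (f : G → M) (hf : ∀ x ∈ K, ∀ y ∈ K, f (x * y) = f x + f y) (T : AddSubgroup M)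
    (hTs : ∀ t ∈ T, ∃ x ∈ K, f x = t)
    (hH : ∀ x ∈ K, x ∈ H → f x = 0) : Nat.card T ≤ H.relIndex K := by
  classical
  let φ : K →* Multiplicative M :=
    MonoidHom.mk' (fun x => Multiplicative.ofAdd (f x)) (by
      intro x y
      rw [← ofAdd_add]
      congr 1
      exact hf x x.2 y y.2)
  have h1 : H.subgroupOf K ≤ φ.ker := by
    intro x hx
    rw [Subgroup.mem_subgroupOf] at hx
    rw [MonoidHom.mem_ker]
    apply Multiplicative.toAdd.injective
    exact hH x x.2 hx
  have h2 : φ.ker.index ≤ H.relIndex K := by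
    rw [Subgroup.relIndex]
    exact Nat.le_of_dvd (Nat.pos_of_ne_zero Subgroup.index_ne_zero_of_finite)
      (Subgroup.index_dvd_of_le h1)
  refine le_trans ?_ h2
  rw [Subgroup.index_ker]
  have : (T : Set M) ⊆ Multiplicative.ofAdd ⁻¹' (φ.range : Set (Multiplicative M)) := by
    intro t ht
    obtain ⟨x, hx, hxt⟩ := hTs t ht
    exact ⟨⟨x, hx⟩, by rw [← hxt]; rfl⟩
  exact Nat.card_mono (Set.toFinite _) this

theorem card_sub {p : ℕ} [Fact p.Prime] {M : Type} [AddCommGroup M] [Module (ZMod p) M] [Finite M]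
    (S : Submodule (ZMod p) M) : Nat.card S.toAddSubgroup = p ^ finrank (ZMod p) S := by
  have h := Module.natCard_eq_pow_finrank (K := ZMod p) (V := S)
  rw [Nat.card_zmod] at h
  exact h

/-- row rank -/
theorem finrank_rows {F : Type} [Field F] {n r : ℕ} (N : Matrix (Fin n) (Fin r) F) :
    finrank F (Submodule.span F (Set.range N)) = N.rank := by
  rw [Matrix.rank_eq_finrank_span_row]
  rfl

theorem t_IDX4 (hZF : S_ZF) (hHOM : S_HOM) : S_IDX4 := by
  intro p _ G A _ _ _ _ D K hA n co v r ψ hψ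
  obtain ⟨-, -, hZ3, hZ4, -, hZ6, hZ7⟩ := hZF p G A D
  obtain ⟨hhom, hsurj⟩ := hHOM p G A D K n co hA
  let f : G → (Fin r → ZMod p) := fun x j => v (D.lg x (ψ j))
  have hf : ∀ x ∈ K, ∀ y ∈ K, f (x * y) = f x + f y := by
    intro x hx y hy
    funext j
    show v (D.lg (x * y) (ψ j)) = v (D.lg x (ψ j)) + v (D.lg y (ψ j))
    rw [hZ6 K x hx y hy _ (hψ j), map_add]
  have hfA : ∀ a, f (D.ι a) = 0 := by
    intro a
    funext j
    show v (D.lg (D.ι a) (ψ j)) = 0
    exact hZ7 (ZMod p) v (D.ι a) (fun b => by rw [D.act_ι]; rfl) _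
  set N : Matrix (Fin n) (Fin r) (ZMod p) := Matrix.of (fun i j => v (D.lg (co.k i) (ψ j))) with hN
  let T : Submodule (ZMod p) (Fin r → ZMod p) := Submodule.span (ZMod p) (Set.range N)
  have hTs : ∀ t ∈ T.toAddSubgroup, ∃ x ∈ K, f x = t := by
    intro t ht
    rw [Submodule.mem_toAddSubgroup] at ht
    obtain ⟨s, hs⟩ := (Submodule.mem_span_range_iff_exists_fun (ZMod p)).mp ht
    obtain ⟨x, hx, hxs⟩ := hsurj s
    refine ⟨x, hx, ?_⟩
    rw [hhom _ f hf hfA x hx, hxs, ← hs]
    rfl
  have h := relIndex_le K (D.stabK K v) f hf T.toAddSubgroup hTs (by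
    intro x _ hx
    funext j
    exact hZ7 (ZMod p) v x hx.1 _)
  rw [card_sub, finrank_rows] at h
  exact h

theorem finrank_leftKer {F : Type} [Field F] {n r : ℕ} (N : Matrix (Fin n) (Fin r) F) :
    finrank F (leftKer N) + N.rank = n := by
  have h1 : leftKer N = LinearMap.ker (N.transpose.mulVecLin) := by
    ext s
    rw [LinearMap.mem_ker, Matrix.mulVecLin_apply]
    constructor
    · intro h
      funext l
      have := h l
      simp only [Matrix.mulVec, dotProduct, Matrix.transpose_apply, Pi.zero_apply]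
      rw [← this]
      exact Finset.sum_congr rfl fun i _ => mul_comm _ _
    · intro h l
      have := congrFun h l
      simp only [Matrix.mulVec, dotProduct, Matrix.transpose_apply, Pi.zero_apply] at this
      rw [← this]
      exact Finset.sum_congr rfl fun i _ => mul_comm _ _
  have h2 := LinearMap.finrank_range_add_finrank_ker (N.transpose.mulVecLin)
  rw [← h1, Module.finrank_fin_fun] at h2
  have h3 : finrank F (LinearMap.range N.transpose.mulVecLin) = N.rank := by
    rw [← Matrix.rank_transpose N]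
    rfl
  omega

theorem t_IDX1 (hZF : S_ZF) (hLOG2 : S_LOG2) (hHOM : S_HOM) (hLIN : S_LIN) (hRKB : S_RKB) :
    S_IDX1 := by
  intro p _ G A _ _ _ _ D _ d b K hA hZ n co v
  obtain ⟨hZ1, -, -, -, hZ5, hZ6, hZ7⟩ := hZF p G A D
  obtain ⟨hhom, hsurj⟩ := hHOM p G A D K n co hA
  have hp : 2 ≤ p := Nat.Prime.two_le (Fact.out : p.Prime)
  have hZp : D.Z K p = ⊤ := by
    have := hZ1 K (p - 1)
    rw [hZ, show p - 1 + 1 = p by omega] at this
    exact top_le_iff.mp this
  let f : G → (Fin d → ZMod p) := fun x l => v (D.lg x (b l))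
  have hf : ∀ x ∈ K, ∀ y ∈ K, f (x * y) = f x + f y := by
    intro x hx y hy
    funext j
    show v (D.lg (x * y) (b j)) = v (D.lg x (b j)) + v (D.lg y (b j))
    rw [hZ6 K x hx y hy _ (by rw [hZp]; trivial), map_add]
  have hfA : ∀ a, f (D.ι a) = 0 := by
    intro a
    funext j
    show v (D.lg (D.ι a) (b j)) = 0
    exact hZ7 (ZMod p) v (D.ι a) (fun b => by rw [D.act_ι]; rfl) _
  have hker : ∀ x ∈ K, x ∈ D.stabK K v ↔ f x = 0 := by
    intro x hx
    constructor
    · intro h
      funext j
      exact hZ7 (ZMod p) v x h.1 _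
    · intro h
      refine ⟨?_, hx⟩
      have h1 : v ∘ₗ D.lg x = 0 := by
        apply b.ext
        intro j
        exact congrFun h j
      have h2 := hLOG2 p A (ZMod p) (D.N x) ⊤ (fun _ _ => trivial) (fun a _ => by
        have := hZ5 K p p 0 x hx x hx a (by rw [hZp]; trivial) (by omega)
        simpa using this) v (fun a _ => LinearMap.congr_fun h1 a)
      intro a
      have h3 := h2 a trivial
      have h4 : D.N x a = D.act x a - a := rfl
      rw [h4, map_sub, sub_eq_zero] at h3
      exact h3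
  let N : Matrix (Fin n) (Fin d) (ZMod p) := fun i l => v (D.lg (co.k i) (b l))
  let D0 : Matrix (Fin n) (Fin n) (ZMod p) := fun i j => v (CC D co i j)
  have hfx : ∀ x ∈ K, f x = ∑ i, co.α x i • N i := fun x hx => hhom _ f hf hfA x hx
  have hTT : TT D v co (fun l => b l) = Matrix.fromBlocks D0 N (-N.transpose) 0 := rfl
  have hR := hRKB (ZMod p) (Fin n) (Fin d) D0 N
  rw [← hTT, Fintype.card_fin] at hR
  have hU := finrank_leftKer N
  -- first index
  have h1 : (D.stabK K v).relIndex K = p ^ N.rank := by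
    have h := relIndex_eq K (D.stabK K v) f hf
      (Submodule.span (ZMod p) (Set.range N)).toAddSubgroup ⊥ (by
        intro x hx
        rw [Submodule.mem_toAddSubgroup, hfx x hx]
        exact Submodule.sum_mem _ fun i _ => Submodule.smul_mem _ _
          (Submodule.subset_span ⟨i, rfl⟩)) (by
        intro t ht
        rw [Submodule.mem_toAddSubgroup] at ht
        obtain ⟨s, hs⟩ := (Submodule.mem_span_range_iff_exists_fun (ZMod p)).mp ht
        obtain ⟨x, hx, hxs⟩ := hsurj s
        refine ⟨x, hx, ?_⟩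
        rw [hfx x hx, hxs, ← hs]) bot_le (by
        intro x hx
        rw [hker x hx, AddSubgroup.mem_bot])
    rw [card_sub, finrank_rows] at h
    simpa using h
  have hsw : ∀ x ∈ D.stabK K v, ∀ y ∈ D.stabK K v, v (D.c y x) =
      ∑ i, ∑ j, co.α y i * D0 i j * co.α x j := by
    intro x hx y hy
    rw [hLIN p G A D K hA hZ n co v y hy x hx]
    exact Finset.sum_congr rfl fun i _ => Finset.sum_congr rfl fun j _ => by
      show co.α y i * co.α x j * D0 i j = _
      ring
  have hαU : ∀ x ∈ D.stabK K v, co.α x ∈ leftKer N := by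
    intro x hx l
    have := (hker x hx.2).mp hx
    rw [hfx x hx.2] at this
    have := congrFun this l
    rw [Finset.sum_apply] at this
    exact this
  have hUs : ∀ t ∈ leftKer N, ∃ x ∈ D.stabK K v, co.α x = t := by
    intro t ht
    obtain ⟨x, hx, hxs⟩ := hsurj t
    refine ⟨x, (hker x hx).mpr ?_, hxs⟩
    rw [hfx x hx, hxs]
    funext l
    rw [Finset.sum_apply]
    exact ht l
  have h2 : (D.radK K v).relIndex (D.stabK K v) * p ^ finrank (ZMod p) (radLK D0 N)
      = p ^ finrank (ZMod p) (leftKer N) := by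
    have h := relIndex_eq (D.stabK K v) (D.radK K v) co.α
      (fun x hx y hy => co.α_mul x hx.2 y hy.2)
      (leftKer N).toAddSubgroup (radLK D0 N).toAddSubgroup hαU hUs (fun s hs => hs.1) (by
        intro x hx
        constructor
        · intro hr
          refine ⟨hαU x hx, fun w hw => ?_⟩
          obtain ⟨y, hy, rfl⟩ := hUs w hw
          rw [← hsw x hx y hy, D.c_swap, map_neg, hr.2 y hy, neg_zero]
        · intro hr
          refine ⟨hx, fun y hy => ?_⟩
          rw [D.c_swap, map_neg, hsw x hx y hy, hr.2 _ (hαU y hy), neg_zero])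
    rw [card_sub, card_sub] at h
    exact h
  have hpp : 0 < p ^ finrank (ZMod p) (radLK D0 N) := by positivity
  apply Nat.eq_of_mul_eq_mul_right hpp
  rw [Dat.bsqK, mul_assoc, h2, h1, ← pow_mul, ← pow_add, ← pow_add]
  congr 1
  omega

end H28.EA
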